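import Pool.Agent.L0h99.MN.Stm

/-!
# Project MN, module C3Z
-/

set_option autoImplicit false
set_option linter.all false

namespace Pool.Agent.L0h2.MN

open Finset
open Pool.Agent.L0h99.MN

theorem C3Z : St_C3Z := by
  intro V _ _ G W H h34 hI hCA hCB v hv a b w hab haw hbw hN ha hb hw hcase
  have hva : G.Adj v a := mem_N.1 (by rw [hN]; simp)
  have hvb : G.Adj v b := mem_N.1 (by rw [hN]; simp)
  have hvw : G.Adj v w := mem_N.1 (by rw [hN]; simp)
  have haW : a ∈ W := hI.hN v hv a hva
  have hbW : b ∈ W := hI.hN v hv b hvb
  have hwW : w ∈ W := hI.hN v hv w hvw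
  have haH : a ∉ H := fun h => hI.ind v hv a h hva
  have hbH : b ∉ H := fun h => hI.ind v hv b h hvb
  have hwH : w ∉ H := fun h => hI.ind v hv w h hvw
  have hav : a ≠ v := hva.ne'
  have hbv : b ≠ v := hvb.ne'
  have hwv : w ≠ v := hvw.ne'
  have hc3 : (N G v).card = 3 := by
    rw [hN]
    exact Finset.card_eq_three.2 ⟨a, b, w, hab, haw, hbw, rfl⟩
  have hmu : ∀ x ∈ W, 1 ≤ mu G x := by
    intro x hx
    have := hI.deg x hx
    unfold mu
    omega
  have hca : ∀ x, G.Adj v x → ∀ h ∈ H, h ≠ v → ¬ G.Adj h x := by
    intro x hx h hh hne hadj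
    exact hne (hCA x h hh v hv hadj.symm hx.symm)
  -- no neighbours of `x` in a set
  have hno : ∀ (x : V) (B : Finset V), B ⊆ W → v ∉ B → (∀ y ∈ W, G.Adj x y → y = v) →
      (N G x ∩ B).card = 0 := by
    intro x B hB hvB hx
    rw [Finset.card_eq_zero, Finset.eq_empty_iff_forall_notMem]
    intro y hy
    rw [Finset.mem_inter, mem_N] at hy
    exact hvB (hx y (hB hy.2) hy.1 ▸ hy.2)
  rcases hcase with h1 | ⟨y, hy, hwy, hyv, h2⟩
  · have hsub : ({a, b, w} : Finset V) ⊆ W := by
      intro x hx
      simp only [Finset.mem_insert, Finset.mem_singleton] at hx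
      rcases hx with rfl | rfl | rfl
      · exact haW
      · exact hbW
      · exact hwW
    have hvA : v ∉ ({a, b, w} : Finset V) := by
      simp only [Finset.mem_insert, Finset.mem_singleton]
      rintro (h | h | h)
      · exact hav h.symm
      · exact hbv h.symm
      · exact hwv h.symm
    refine ⟨v, hv, {a, b, w}, hsub, ?_, ?_, ?_, ?_⟩
    · intro x hx
      simp only [Finset.mem_insert, Finset.mem_singleton] at hx
      rcases hx with rfl | rfl | rfl
      · exact haH
      · exact hbH
      · exact hwH
    · have e1 := hno a _ hsub hvA ha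
      have e2 := hno b _ hsub hvA hb
      have e3 := hno w _ hsub hvA h1
      have m1 := hmu a haW
      have m2 := hmu b hbW
      have m3 := hmu w hwW
      have s1 : ee G {a, b, w} {a, b, w} = ((N G a ∩ {a, b, w}).card : ℤ) +
          (((N G b ∩ {a, b, w}).card : ℤ) + ((N G w ∩ {a, b, w}).card : ℤ)) := by
        unfold ee
        rw [Finset.sum_insert (by simp [hab, haw]), Finset.sum_insert (by simp [hbw]),
          Finset.sum_singleton]
      have s2 : Mu G {a, b, w} = mu G a + (mu G b + mu G w) := by
        unfold Mu
        rw [Finset.sum_insert (by simp [hab, haw]), Finset.sum_insert (by simp [hbw]),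
          Finset.sum_singleton]
      rw [s1, s2, e1, e2, e3, hc3]
      push_cast
      omega
    · intro h hh hne x hx
      simp only [Finset.mem_insert, Finset.mem_singleton] at hx
      rcases hx with rfl | rfl | rfl
      · exact hca _ hva h hh hne
      · exact hca _ hvb h hh hne
      · exact hca _ hvw h hh hne
    · intro x hx z hz hzv hzA hadj
      simp only [Finset.mem_insert, Finset.mem_singleton] at hx
      rcases hx with rfl | rfl | rfl
      · exact hzv (ha z hz hadj)
      · exact hzv (hb z hz hadj)
      · exact hzv (h1 z hz hadj)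
  · have hyw : y ≠ w := hwy.ne'
    have hya : y ≠ a := by
      intro h
      subst h
      exact hwv (ha w hwW hwy.symm)
    have hyb : y ≠ b := by
      intro h
      subst h
      exact hwv (hb w hwW hwy.symm)
    have hyH : y ∉ H := fun h => hyv (hCA w y h v hv hwy hvw.symm)
    have hsub : ({a, b, w, y} : Finset V) ⊆ W := by
      intro x hx
      simp only [Finset.mem_insert, Finset.mem_singleton] at hx
      rcases hx with rfl | rfl | rfl | rfl
      · exact haW
      · exact hbW
      · exact hwW
      · exact hy
    have hvA : v ∉ ({a, b, w, y} : Finset V) := by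
      simp only [Finset.mem_insert, Finset.mem_singleton]
      rintro (h | h | h | h)
      · exact hav h.symm
      · exact hbv h.symm
      · exact hwv h.symm
      · exact hyv h.symm
    have hwz : ∀ z ∈ W, z ≠ v → G.Adj w z → z = y := fun z hz hzv hadj =>
      hw z hz y hy hadj hwy hzv hyv
    refine ⟨v, hv, {a, b, w, y}, hsub, ?_, ?_, ?_, ?_⟩
    · intro x hx
      simp only [Finset.mem_insert, Finset.mem_singleton] at hx
      rcases hx with rfl | rfl | rfl | rfl
      · exact haH
      · exact hbH
      · exact hwH
      · exact hyH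
    · have e1 := hno a _ hsub hvA ha
      have e2 := hno b _ hsub hvA hb
      have e3 : (N G w ∩ {a, b, w, y}).card ≤ 1 := by
        rw [Finset.card_le_one]
        intro p hp q hq
        rw [Finset.mem_inter, mem_N] at hp hq
        have hpv : p ≠ v := fun h => hvA (h ▸ hp.2)
        have hqv : q ≠ v := fun h => hvA (h ▸ hq.2)
        rw [hwz p (hsub hp.2) hpv hp.1, hwz q (hsub hq.2) hqv hq.1]
      have e4 : (N G y ∩ {a, b, w, y}).card ≤ 1 := by
        rw [Finset.card_le_one]
        intro p hp q hq
        rw [Finset.mem_inter, mem_N] at hp hq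
        rw [h2 p (hsub hp.2) hp.1, h2 q (hsub hq.2) hq.1]
      have m1 := hmu a haW
      have m2 := hmu b hbW
      have m3 := hmu w hwW
      have m4 := hmu y hy
      have s1 : ee G {a, b, w, y} {a, b, w, y} = ((N G a ∩ {a, b, w, y}).card : ℤ) +
          (((N G b ∩ {a, b, w, y}).card : ℤ) + (((N G w ∩ {a, b, w, y}).card : ℤ) +
            ((N G y ∩ {a, b, w, y}).card : ℤ))) := by
        unfold ee
        rw [Finset.sum_insert (by simp [hab, haw, hya.symm]),
          Finset.sum_insert (by simp [hbw, hyb.symm]),
          Finset.sum_insert (by simp [hyw.symm]), Finset.sum_singleton]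
      have s2 : Mu G {a, b, w, y} = mu G a + (mu G b + (mu G w + mu G y)) := by
        unfold Mu
        rw [Finset.sum_insert (by simp [hab, haw, hya.symm]),
          Finset.sum_insert (by simp [hbw, hyb.symm]),
          Finset.sum_insert (by simp [hyw.symm]), Finset.sum_singleton]
      rw [s1, s2, e1, e2, hc3]
      push_cast
      omega
    · intro h hh hne x hx
      simp only [Finset.mem_insert, Finset.mem_singleton] at hx
      rcases hx with rfl | rfl | rfl | rfl
      · exact hca _ hva h hh hne
      · exact hca _ hvb h hh hne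
      · exact hca _ hvw h hh hne
      · exact fun hadj => hCB v hv h hh _ _ hvw hwy hadj.symm
    · intro x hx z hz hzv hzA hadj
      simp only [Finset.mem_insert, Finset.mem_singleton] at hx
      rcases hx with rfl | rfl | rfl | rfl
      · exact hzv (ha z hz hadj)
      · exact hzv (hb z hz hadj)
      · exact hzA (by rw [hwz z hz hzv hadj]; simp)
      · exact hzA (by rw [h2 z hz hadj]; simp)

end Pool.Agent.L0h2.MN
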